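import Pool.Agent.Q72.AL.Stm
import Pool.Agent.W915.WM.Hor

/-! AL-AB: upper bound for `1/ζ'` at a simple zero which is far from the others (project AL of helper72). -/

set_option autoImplicit false

open Complex Filter Topology Set MeasureTheory Metric
open H345 (Zo aa XX)

namespace Pool.Agent.Q241.AL

/-- Gronwall's inequality on a horizontal segment -/
lemma low' (f : ℂ → ℂ) (M t σ : ℝ) (hσ : σ ≤ 3 / 2)
    (hd : ∀ x ∈ Icc σ (3 / 2), DifferentiableAt ℂ f (⟨x, t⟩ : ℂ))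
    (h : ∀ x ∈ Icc σ (3 / 2), f (⟨x, t⟩ : ℂ) ≠ 0 ∧
      ‖deriv f (⟨x, t⟩ : ℂ) / f (⟨x, t⟩ : ℂ)‖ ≤ M) :
    ‖f (⟨3 / 2, t⟩ : ℂ)‖ ≤ ‖f (⟨σ, t⟩ : ℂ)‖ * Real.exp (M * (3 / 2 - σ)) := by
  have hd' : ∀ x ∈ Icc σ (3 / 2), HasDerivAt (fun x : ℝ => f (⟨x, t⟩ : ℂ))
      (deriv f (⟨x, t⟩ : ℂ)) x := by
    intro x hx
    have h1 : HasDerivAt (fun x : ℝ => (⟨x, t⟩ : ℂ)) 1 x := by
      have e : (fun x : ℝ => (⟨x, t⟩ : ℂ)) = fun x : ℝ => (x : ℂ) + t * I := by
        funext u; apply Complex.ext <;> simp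
      rw [e]
      exact (Complex.ofRealCLM.hasDerivAt (x := x)).add_const _
    have := HasDerivAt.scomp (g₁ := f) (h := fun x : ℝ => (⟨x, t⟩ : ℂ)) x
        ((hd x hx).hasDerivAt) h1
    rw [one_smul] at this
    exact this
  have hcont : ContinuousOn (fun x : ℝ => f (⟨x, t⟩ : ℂ)) (Icc σ (3 / 2)) :=
    fun x hx => (hd' x hx).continuousAt.continuousWithinAt
  have hb : ∀ x ∈ Ico σ (3 / 2), ‖deriv f (⟨x, t⟩ : ℂ)‖ ≤ M * ‖f (⟨x, t⟩ : ℂ)‖ + 0 := by
    intro x hx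
    obtain ⟨h1, h2⟩ := h x ⟨hx.1, hx.2.le⟩
    rw [norm_div, div_le_iff₀ (norm_pos_iff.2 h1)] at h2
    linarith
  have := norm_le_gronwallBound_of_norm_deriv_right_le hcont
    (fun x hx => (hd' x ⟨hx.1, hx.2.le⟩).hasDerivWithinAt) (le_refl _) hb (3 / 2) ⟨hσ, le_rfl⟩
  rwa [gronwallBound_ε0] at this

theorem ab : Pool.Agent.Q72.AL.J_AB := by
  intro hRH
  obtain ⟨B, hB, hright⟩ := Pool.Agent.W915.WM.zeta_inv_right
  obtain ⟨K, hK, hdata⟩ := H370.Loc.ball_data H370.good_zeta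
  set q : ℝ := Real.log (1.9 / 1.8) with hq
  have hq0 : 0 < q := Real.log_pos (by norm_num)
  set ℓ : ℝ := Real.log (1.8 / (1.9 - 1.8)) with hℓ
  have hℓ0 : 0 < ℓ := Real.log_pos (by norm_num)
  set D : ℝ := (3 + 2 * K) / q +
    2 * ((3 + 2 * K) + (3 + 2 * K) / q * ℓ + 1) * 1.7 / (1.8 - 1.7) / (1.7 - 1.5) with hD
  have hD0 : 0 < D := by
    have : (0 : ℝ) < 1.8 - 1.7 := by norm_num
    have : (0 : ℝ) < 1.7 - 1.5 := by norm_num
    positivity
  refine ⟨D + B, 30, by positivity, fun X hX hsimple hspaced t ht ht1 ht2 => ?_⟩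
  set L : ℝ := Real.log X with hL
  have hL1 : 1 ≤ L := by
    rw [hL, Real.le_log_iff_exp_le (by linarith)]
    have := Real.exp_one_lt_d9
    linarith
  have ht0 : 3 ≤ t := by linarith
  have hlt : Real.log t ≤ 2 * L := by
    have h1 : Real.log t ≤ Real.log (X ^ 2) := Real.log_le_log (by linarith) (by nlinarith)
    rw [Real.log_pow] at h1
    exact_mod_cast h1
  obtain ⟨M, hM1, han, hF0, hb, hMc, hL0, hLM⟩ := hdata t ht0
  set c : ℂ := ⟨2, t⟩ with hc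
  set ρ : ℂ := ⟨1 / 2, t⟩ with hρ
  have hρe : (1 / 2 + (t : ℂ) * I) = ρ := by apply Complex.ext <;> simp [hρ]
  have hζρ : riemannZeta ρ = 0 := by rw [← hρe]; exact ht
  have hζ' : deriv riemannZeta ρ ≠ 0 := by
    rw [← hρe]
    exact hsimple t ht (by linarith) (by linarith)
  have hρc : ‖ρ - c‖ = 1.5 := by
    have : ρ - c = ((-1.5 : ℝ) : ℂ) := by
      apply Complex.ext
      · simp [hρ, hc]; norm_num
      · simp [hρ, hc]
    rw [this, Complex.norm_real, Real.norm_eq_abs]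
    norm_num
  have hρK : ρ ∈ closedBall c 1.9 := by
    rw [mem_closedBall, dist_eq_norm, hρc]; norm_num
  have hcK : c ∈ closedBall c 1.9 := mem_closedBall_self (by norm_num)
  set f : ℂ → ℂ := dslope riemannZeta ρ with hf
  have hfan : AnalyticOnNhd ℂ f (closedBall c 1.9) := H370.Loc.analytic_dslope han (han ρ hρK)
  have hid : ∀ z, (z - ρ) * f z = riemannZeta z := by
    intro z
    have := sub_smul_dslope riemannZeta ρ z
    rw [hζρ, sub_zero, smul_eq_mul] at this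
    exact this
  have hfρ : f ρ = deriv riemannZeta ρ := dslope_same _ _
  have hcρ : ‖c - ρ‖ = 1.5 := by rw [norm_sub_rev]; exact hρc
  have hfc : 1.5 * ‖f c‖ = ‖riemannZeta c‖ := by
    rw [← hid c, norm_mul, hcρ]
  have hζc : 0 < ‖riemannZeta c‖ := norm_pos_iff.2 hF0
  have hfc0 : 0 < ‖f c‖ := by
    have : 0 < 1.5 * ‖f c‖ := by rw [hfc]; exact hζc
    linarith
  have hsph : ∀ w ∈ sphere c 1.9, ‖f w‖ ≤ 2.5 * M := by
    intro w hw
    have hwR := sphere_subset_closedBall hw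
    have h1 : 0.4 ≤ ‖w - ρ‖ := by
      rw [mem_sphere, dist_eq_norm] at hw
      have h3 : ‖w - c‖ ≤ ‖w - ρ‖ + ‖ρ - c‖ := by
        calc ‖w - c‖ = ‖(w - ρ) + (ρ - c)‖ := by congr 1; ring
          _ ≤ _ := norm_add_le _ _
      rw [hw, hρc] at h3
      linarith
    have h2 : ‖w - ρ‖ * ‖f w‖ = ‖riemannZeta w‖ := by rw [← norm_mul, hid w]
    have h3 := hb w hwR
    have h4 := mul_le_mul_of_nonneg_right h1 (norm_nonneg (f w))
    linarith
  have hfb : ∀ w ∈ closedBall c 1.9, ‖f w‖ ≤ 2.5 * M := by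
    intro w hw
    refine Complex.norm_le_of_forall_mem_frontier_norm_le (U := ball c 1.9) isBounded_ball ?_ ?_ ?_
    · apply DifferentiableOn.diffContOnCl
      rw [closure_ball c (by norm_num)]
      exact fun x hx => (hfan x hx).differentiableAt.differentiableWithinAt
    · intro x hx
      rw [frontier_ball c (by norm_num)] at hx
      exact hsph x hx
    · rwa [closure_ball c (by norm_num)]
  have hM' : 1 ≤ 2.5 * M := by linarith
  have hMf : ‖f c‖ ≤ 2.5 * M := hfb c hcK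
  -- the logarithm
  have hΛ : Real.log (2.5 * M / ‖f c‖) ≤ (3 + 2 * K) * L := by
    have e1 : 2.5 * M / ‖f c‖ = 3.75 * (M / ‖riemannZeta c‖) := by
      rw [← hfc]; field_simp; norm_num
    have hMp : 0 < M / ‖riemannZeta c‖ := by positivity
    rw [e1, Real.log_mul (by norm_num) hMp.ne']
    have e2 : Real.log 3.75 ≤ 3.75 - 1 := Real.log_le_sub_one_of_pos (by norm_num)
    have e3 : K * Real.log t ≤ K * (2 * L) := mul_le_mul_of_nonneg_left hlt hK.le
    nlinarith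
  have hΛ0 : 0 ≤ Real.log (2.5 * M / ‖f c‖) := Real.log_nonneg (by
    rw [le_div_iff₀ hfc0]; linarith)
  have hδ : 0 < 1 / L := by positivity
  -- the zeros of f
  have hzero : ∀ ρ' ∈ closedBall c 1.8, f ρ' = 0 → 1 / L ≤ |t - ρ'.im| := by
    intro ρ' hρ' hfz
    have hne : ρ' ≠ ρ := by
      rintro rfl
      exact hζ' (hfρ ▸ hfz)
    have hz : riemannZeta ρ' = 0 := by rw [← hid ρ', hfz, mul_zero]
    rw [mem_closedBall, dist_eq_norm] at hρ'
    have h2 := (Complex.abs_im_le_norm (ρ' - c)).trans hρ'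
    simp only [sub_im, hc] at h2
    rw [abs_le] at h2
    have him : 1 ≤ ρ'.im := by norm_num at h2 ⊢; linarith [h2.1]
    have hre : ρ'.re = 1 / 2 := by
      refine hRH ρ' hz ?_ ?_
      · rintro ⟨n, hn⟩
        have := congrArg Complex.im hn
        simp at this
        linarith
      · intro h1
        have := congrArg Complex.im h1
        simp at this
        linarith
    have hρ'e : ρ' = 1 / 2 + ((ρ'.im : ℝ) : ℂ) * I := by
      apply Complex.ext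
      · simp [hre]
      · simp
    have hZ : ρ'.im ∈ Zo := by
      change riemannZeta (1 / 2 + ((ρ'.im : ℝ) : ℂ) * I) = 0
      rw [← hρ'e]; exact hz
    have hne' : ρ'.im ≠ t := by
      intro h
      apply hne
      apply Complex.ext
      · rw [hre]
      · rw [h]
    have ha : X / 4 ≤ ρ'.im := by norm_num at h2 ⊢; linarith [h2.1]
    have hb' : ρ'.im ≤ 6 * X := by norm_num at h2 ⊢; linarith [h2.2]
    rcases lt_or_gt_of_ne hne' with h | h
    · refine (hspaced _ hZ t ht ha h (by linarith)).trans (le_abs_self _)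
    · rw [abs_sub_comm]
      exact (hspaced t ht _ hZ (by linarith) h hb').trans (le_abs_self _)
  -- the logarithmic derivative on the segment
  have hseg : ∀ x ∈ Icc (1 / 2 : ℝ) (3 / 2), f (⟨x, t⟩ : ℂ) ≠ 0 ∧
      ‖deriv f (⟨x, t⟩ : ℂ) / f (⟨x, t⟩ : ℂ)‖ ≤ D * L ^ 2 := by
    intro x hx
    have hz : (⟨x, t⟩ : ℂ) ∈ closedBall c 1.5 := by
      rw [mem_closedBall, dist_eq_norm]
      have : (⟨x, t⟩ : ℂ) - c = ((x - 2 : ℝ) : ℂ) := by
        apply Complex.ext <;> simp [hc]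
      rw [this, Complex.norm_real, Real.norm_eq_abs, abs_le]
      constructor <;> norm_num <;> linarith [hx.1, hx.2]
    have hland := H370.Loc.landau (f := f) (c := c) (r := 1.8) (r1 := 1.7) (r2 := 1.5) (R := 1.9)
      (M := 2.5 * M) (by norm_num) (by norm_num) (by norm_num) (by norm_num) (by norm_num) hM' hMf
      hfan (norm_pos_iff.1 hfc0) hfb ⟨x, t⟩ hz (1 / L) hδ (by
        intro ρ' hρ' hf'
        refine (hzero ρ' hρ' hf').trans ?_
        have := Complex.abs_im_le_norm ((⟨x, t⟩ : ℂ) - ρ')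
        simpa using this)
    refine ⟨hland.1, hland.2.trans ?_⟩
    rw [← hq, ← hℓ]
    set Λ : ℝ := Real.log (2.5 * M / ‖f c‖) with hΛd
    have e1 : Λ / q / (1 / L) = Λ / q * L := by rw [div_div_eq_mul_div, div_one]
    rw [e1]
    have e3 : Λ / q ≤ (3 + 2 * K) / q * L := by
      rw [div_mul_eq_mul_div]
      exact div_le_div_of_nonneg_right hΛ hq0.le
    have e4 : Λ / q * L ≤ (3 + 2 * K) / q * L ^ 2 := by
      have := mul_le_mul_of_nonneg_right e3 (by linarith : (0:ℝ) ≤ L)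
      calc Λ / q * L ≤ (3 + 2 * K) / q * L * L := this
        _ = _ := by ring
    have f1 : L ≤ L ^ 2 := by nlinarith
    have e5 : Λ + Λ / q * ℓ + 1 ≤ ((3 + 2 * K) + (3 + 2 * K) / q * ℓ + 1) * L ^ 2 := by
      have f2 : Λ / q * ℓ ≤ (3 + 2 * K) / q * L * ℓ := mul_le_mul_of_nonneg_right e3 hℓ0.le
      have f3 : (0 : ℝ) ≤ (3 + 2 * K) / q * ℓ := by positivity
      have f4 : (3 + 2 * K) * L ≤ (3 + 2 * K) * L ^ 2 :=
        mul_le_mul_of_nonneg_left f1 (by positivity)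
      have f5 : (3 + 2 * K) / q * ℓ * L ≤ (3 + 2 * K) / q * ℓ * L ^ 2 :=
        mul_le_mul_of_nonneg_left f1 f3
      nlinarith
    have e6 : 2 * (Λ + Λ / q * ℓ + 1) * 1.7 / (1.8 - 1.7) / (1.7 - 1.5) ≤
        2 * (((3 + 2 * K) + (3 + 2 * K) / q * ℓ + 1) * L ^ 2) * 1.7 / (1.8 - 1.7) / (1.7 - 1.5) := by
      have g1 : (0 : ℝ) < 1.8 - 1.7 := by norm_num
      have g2 : (0 : ℝ) < 1.7 - 1.5 := by norm_num
      gcongr
    calc _ ≤ (3 + 2 * K) / q * L ^ 2 +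
        2 * (((3 + 2 * K) + (3 + 2 * K) / q * ℓ + 1) * L ^ 2) * 1.7 / (1.8 - 1.7) / (1.7 - 1.5) :=
          add_le_add e4 e6
      _ = D * L ^ 2 := by rw [hD]; ring
  have hlow := low' f (D * L ^ 2) t (1 / 2) (by norm_num) (by
    intro x hx
    apply (hfan _ _).differentiableAt
    rw [mem_closedBall, dist_eq_norm]
    have : (⟨x, t⟩ : ℂ) - c = ((x - 2 : ℝ) : ℂ) := by
      apply Complex.ext <;> simp [hc]
    rw [this, Complex.norm_real, Real.norm_eq_abs, abs_le]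
    constructor <;> norm_num <;> linarith [hx.1, hx.2]) hseg
  rw [show D * L ^ 2 * (3 / 2 - 1 / 2) = D * L ^ 2 by ring] at hlow
  have hend : f (⟨3 / 2, t⟩ : ℂ) = riemannZeta (⟨3 / 2, t⟩ : ℂ) := by
    have h1 := hid (⟨3 / 2, t⟩ : ℂ)
    have h2 : (⟨3 / 2, t⟩ : ℂ) - ρ = 1 := by
      apply Complex.ext
      · simp [hρ]; norm_num
      · simp [hρ]
    rw [h2, one_mul] at h1
    exact h1
  rw [hend] at hlow
  obtain ⟨h3, h4⟩ := hright (⟨3 / 2, t⟩ : ℂ) le_rfl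
  have hp3 : 0 < ‖riemannZeta (⟨3 / 2, t⟩ : ℂ)‖ := norm_pos_iff.2 h3
  have hfρ0 : 0 < ‖f ρ‖ := by rw [hfρ]; exact norm_pos_iff.2 hζ'
  have haa : ‖aa t‖ = ‖f ρ‖⁻¹ := by
    rw [hfρ, ← norm_inv]
    unfold aa
    rw [hρe]
  have hlow' : ‖riemannZeta (⟨3 / 2, t⟩ : ℂ)‖ ≤ ‖f ρ‖ * Real.exp (D * L ^ 2) := hlow
  have h7 : ‖aa t‖ ≤ ‖(riemannZeta (⟨3 / 2, t⟩ : ℂ))⁻¹‖ * Real.exp (D * L ^ 2) := by
    rw [haa, norm_inv, inv_mul_eq_div, inv_eq_one_div, div_le_div_iff₀ hfρ0 hp3]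
    linarith
  have hBe : B ≤ Real.exp (B * L ^ 2) := by
    have e1 := Real.add_one_le_exp (B * L ^ 2)
    have e2 : (1 : ℝ) ≤ L ^ 2 := by nlinarith
    have e3 : B * 1 ≤ B * L ^ 2 := mul_le_mul_of_nonneg_left e2 (by linarith)
    linarith
  have hexp : 0 ≤ Real.exp (D * L ^ 2) := (Real.exp_pos _).le
  calc ‖aa t‖ ≤ B * Real.exp (D * L ^ 2) := h7.trans (mul_le_mul_of_nonneg_right h4 hexp)
    _ ≤ Real.exp (B * L ^ 2) * Real.exp (D * L ^ 2) := mul_le_mul_of_nonneg_right hBe hexp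
    _ = Real.exp ((D + B) * L ^ 2) := by rw [← Real.exp_add]; congr 1; ring

end Pool.Agent.Q241.AL
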